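import Pool.Agent.helper17.CH.SpecQ

/-!
# Project CH, row WIN: one window
-/

set_option autoImplicit false

namespace Pool.Agent.CH

open Finset ArithmeticFunction MeasureTheory

open Classical in
/-- the sieve weight -/
private noncomputable def WIN_w (z y : ℝ) (a : ℕ) : ℝ :=
  if ∃ q : ℕ, q.Prime ∧ q ∣ a ∧ 7 ≤ q ∧ (q : ℝ) < z then 0
    else 1 - 1 / 2 * (#(a.primeFactors.filter fun q : ℕ => z ≤ (q : ℝ) ∧ (q : ℝ) < y) : ℝ)

private lemma WIN_w_le (z y : ℝ) (a : ℕ) : WIN_w z y a ≤ 1 := by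
  classical
  unfold WIN_w
  split_ifs
  · norm_num
  · have : (0 : ℝ) ≤ (#(a.primeFactors.filter fun q : ℕ => z ≤ (q : ℝ) ∧ (q : ℝ) < y) : ℝ) :=
      Nat.cast_nonneg _
    linarith

/-- the size parameters -/
private lemma WIN_PZ {N : ℕ} (hN : 32768 ≤ N) : PZ N (zS N) (yS N) := by
  have hN1 : (1 : ℝ) ≤ (N : ℝ) := by exact_mod_cast (le_trans (by norm_num) hN)
  have hN0 : (0 : ℝ) ≤ (N : ℝ) := by linarith
  have hX : (1 : ℝ) ≤ 8 * (N : ℝ) ^ 3 := by
    have : (1 : ℝ) ≤ (N : ℝ) ^ 3 := one_le_pow₀ hN1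
    linarith
  have hX0 : (0 : ℝ) ≤ 8 * (N : ℝ) ^ 3 := by linarith
  have hpow : 8 * (N : ℝ) ^ 3 = (2 * (N : ℝ)) ^ 3 := by ring
  refine ⟨?_, ?_, ?_, ?_⟩
  · unfold zS
    calc (N : ℝ) ^ (1 / 6 : ℝ) = ((N : ℝ) ^ 3) ^ (1 / 18 : ℝ) := by
          rw [← Real.rpow_natCast, ← Real.rpow_mul hN0]; norm_num
      _ ≤ (8 * (N : ℝ) ^ 3) ^ (1 / 18 : ℝ) := by
          apply Real.rpow_le_rpow (by positivity) _ (by norm_num)
          have : (0 : ℝ) ≤ (N : ℝ) ^ 3 := by positivity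
          linarith
      _ ≤ (8 * (N : ℝ) ^ 3) ^ (17 / 300 : ℝ) :=
          Real.rpow_le_rpow_of_exponent_le hX (by norm_num)
  · unfold zS yS
    exact Real.rpow_le_rpow_of_exponent_le hX (by norm_num)
  · unfold yS
    rw [← Real.rpow_mul_natCast hX0]
    norm_num
  · unfold yS
    have h8 : (8 : ℝ) ^ (1 / 4 : ℝ) ≤ (N : ℝ) ^ (1 / 20 : ℝ) := by
      calc (8 : ℝ) ^ (1 / 4 : ℝ) = ((8 : ℝ) ^ (5 : ℕ)) ^ (1 / 20 : ℝ) := by
            rw [← Real.rpow_natCast, ← Real.rpow_mul (by norm_num)]; norm_num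
        _ ≤ (N : ℝ) ^ (1 / 20 : ℝ) := by
            apply Real.rpow_le_rpow (by norm_num) _ (by norm_num)
            have : ((32768 : ℕ) : ℝ) ≤ (N : ℝ) := by exact_mod_cast hN
            norm_num at this ⊢
            exact this
    calc (8 * (N : ℝ) ^ 3) ^ (1 / 4 : ℝ) = (8 : ℝ) ^ (1 / 4 : ℝ) * (N : ℝ) ^ (3 / 4 : ℝ) := by
          rw [Real.mul_rpow (by norm_num) (by positivity), ← Real.rpow_natCast,
            ← Real.rpow_mul hN0]
          norm_num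
      _ ≤ (N : ℝ) ^ (1 / 20 : ℝ) * (N : ℝ) ^ (3 / 4 : ℝ) :=
          mul_le_mul_of_nonneg_right h8 (by positivity)
      _ = (N : ℝ) ^ (4 / 5 : ℝ) := by
          rw [← Real.rpow_add (by linarith)]; norm_num

/-- `n < q ^ 6` for `q ≥ zS N`, `n < 2 N`. -/
private lemma WIN_q6 {N n q : ℕ} (hN : 1 ≤ N) (hn : n < 2 * N) (hq : zS N ≤ (q : ℝ)) :
    n < q ^ 6 := by
  have hN1 : (1 : ℝ) ≤ (N : ℝ) := by exact_mod_cast hN
  have h0 : (0 : ℝ) ≤ 2 * (N : ℝ) := by linarith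
  have h1 : (2 * (N : ℝ)) ≤ (zS N) ^ 6 := by
    unfold zS
    have hpow : 8 * (N : ℝ) ^ 3 = (2 * (N : ℝ)) ^ (3 : ℕ) := by ring
    rw [hpow, ← Real.rpow_mul_natCast (by positivity), ← Real.rpow_natCast_mul h0]
    calc 2 * (N : ℝ) = (2 * (N : ℝ)) ^ (1 : ℝ) := (Real.rpow_one _).symm
      _ ≤ _ := Real.rpow_le_rpow_of_exponent_le (by linarith) (by norm_num)
  have h2 : (zS N) ^ 6 ≤ (q : ℝ) ^ 6 := by
    apply pow_le_pow_left₀ _ hq
    unfold zS; positivity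
  have h3 : (n : ℝ) < ((q ^ 6 : ℕ) : ℝ) := by
    push_cast
    calc (n : ℝ) < 2 * (N : ℝ) := by exact_mod_cast hn
      _ ≤ _ := h1
      _ ≤ _ := h2
  exact_mod_cast h3

/-- `z2 N ≤ j` for `j > N ^ 3`. -/
private lemma WIN_z2 {N j : ℕ} (hN : 2 ≤ N) (hj : N ^ 3 < j) : z2 N ≤ (j : ℝ) := by
  have hN2 : (2 : ℝ) ≤ (N : ℝ) := by exact_mod_cast hN
  have hN0 : (0 : ℝ) ≤ (N : ℝ) := by linarith
  have h1 : z2 N ≤ (N : ℝ) ^ 3 := by
    unfold z2
    have h8 : 8 * (N : ℝ) ^ 3 ≤ (N : ℝ) ^ (6 : ℕ) := by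
      have : (2 : ℝ) ^ 3 ≤ (N : ℝ) ^ 3 := pow_le_pow_left₀ (by norm_num) hN2 3
      nlinarith [pow_nonneg hN0 3]
    calc (8 * (N : ℝ) ^ 3) ^ (8 / 75 : ℝ) ≤ ((N : ℝ) ^ (6 : ℕ)) ^ (8 / 75 : ℝ) :=
          Real.rpow_le_rpow (by positivity) h8 (by norm_num)
      _ = (N : ℝ) ^ (16 / 25 : ℝ) := by
          rw [← Real.rpow_natCast, ← Real.rpow_mul hN0]; norm_num
      _ ≤ (N : ℝ) ^ (3 : ℝ) := Real.rpow_le_rpow_of_exponent_le (by linarith) (by norm_num)
      _ = (N : ℝ) ^ 3 := by norm_num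
  have h2 : ((N ^ 3 : ℕ) : ℝ) ≤ (j : ℝ) := by exact_mod_cast hj.le
  push_cast at h2
  linarith

open Classical in
/-- The pointwise inequality. -/
private lemma WIN_pt (hC : COM_stmt) {N n : ℕ} (hN : 32768 ≤ N) (hn1 : N ≤ n) (hn2 : n < 2 * N)
    {j : ℕ} (hj : j ∈ Win n) (hj30 : j % 30 = 1) :
    vonMangoldt j * WIN_w (zS N) (yS N) (j + 6) ≤ Real.log (8 * (N : ℝ) ^ 3) *
      ((if ¬ j.Prime ∧ vonMangoldt j ≠ 0 then (1 : ℝ) else 0) + (if j ∈ GP n then (1 : ℝ) else 0) +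
        (if ∃ q : ℕ, q.Prime ∧ zS N ≤ (q : ℝ) ∧ q ^ 2 ∣ j + 6 then (1 : ℝ) else 0) +
        (if (n + 1) ^ 3 ≤ j + 6 then (1 : ℝ) else 0) +
        1 / 2 * (if j.Prime ∧ Bs (zS N) (yS N) (j + 6) then (1 : ℝ) else 0)) := by
  have hjm := Finset.mem_Ioc.1 hj
  have hN1 : 1 ≤ N := by omega
  have hjpos : 0 < j := by
    have : 0 ≤ n ^ 3 := Nat.zero_le _
    omega
  have hj8 : j ≤ 8 * N ^ 3 := by
    calc j ≤ (n + 1) ^ 3 := hjm.2
      _ ≤ (2 * N) ^ 3 := Nat.pow_le_pow_left (by omega) 3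
      _ = 8 * N ^ 3 := by ring
  have hL : Real.log j ≤ Real.log (8 * (N : ℝ) ^ 3) := by
    apply Real.log_le_log (by exact_mod_cast hjpos)
    exact_mod_cast hj8
  have hlj : 0 ≤ Real.log j := Real.log_natCast_nonneg j
  have hL0 : 0 ≤ Real.log (8 * (N : ℝ) ^ 3) := hlj.trans hL
  have hw := WIN_w_le (zS N) (yS N) (j + 6)
  have hLam : vonMangoldt j ≤ Real.log j := vonMangoldt_le_log
  have hLam0 : 0 ≤ vonMangoldt j := vonMangoldt_nonneg
  set w := WIN_w (zS N) (yS N) (j + 6) with hwdef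
  set L := Real.log (8 * (N : ℝ) ^ 3) with hLdef
  have e2 : (0 : ℝ) ≤ (if j ∈ GP n then (1 : ℝ) else 0) := by split_ifs <;> norm_num
  have e3 : (0 : ℝ) ≤ (if ∃ q : ℕ, q.Prime ∧ zS N ≤ (q : ℝ) ∧ q ^ 2 ∣ j + 6 then (1 : ℝ) else 0) := by
    split_ifs <;> norm_num
  have e4 : (0 : ℝ) ≤ (if (n + 1) ^ 3 ≤ j + 6 then (1 : ℝ) else 0) := by split_ifs <;> norm_num
  have e5 : (0 : ℝ) ≤ (if j.Prime ∧ Bs (zS N) (yS N) (j + 6) then (1 : ℝ) else 0) := by
    split_ifs <;> norm_num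
  have e1 : (0 : ℝ) ≤ (if ¬ j.Prime ∧ vonMangoldt j ≠ 0 then (1 : ℝ) else 0) := by
    split_ifs <;> norm_num
  by_cases hp : j.Prime
  · -- prime
    by_cases hpos : 0 < w - (if Bs (zS N) (yS N) (j + 6) then (1 / 2 : ℝ) else 0)
    · -- one of the indicators `2, 3, 4` is one
      have hone : 1 ≤ (if j ∈ GP n then (1 : ℝ) else 0) +
          (if ∃ q : ℕ, q.Prime ∧ zS N ≤ (q : ℝ) ∧ q ^ 2 ∣ j + 6 then (1 : ℝ) else 0) +
          (if (n + 1) ^ 3 ≤ j + 6 then (1 : ℝ) else 0) := by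
        by_cases h4 : (n + 1) ^ 3 ≤ j + 6
        · rw [if_pos h4]; linarith
        by_cases h3 : ∃ q : ℕ, q.Prime ∧ zS N ≤ (q : ℝ) ∧ q ^ 2 ∣ j + 6
        · rw [if_pos h3]; linarith
        have hGP : j ∈ GP n := by
          push Not at h4
          have hcop : Nat.Coprime (j + 6) 30 := by
            have h7 : (j + 6) % 30 = 7 := by omega
            rw [Nat.coprime_iff_gcd_eq_one, Nat.gcd_comm, Nat.gcd_rec, h7]
            norm_num
          have hlt : j + 6 < 8 * N ^ 3 := by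
            calc j + 6 < (n + 1) ^ 3 := h4
              _ ≤ (2 * N) ^ 3 := Nat.pow_le_pow_left (by omega) 3
              _ = 8 * N ^ 3 := by ring
          have hcom := hC N (j + 6) (zS N) (yS N) (WIN_PZ hN) (by omega) hlt hcop
            (fun q hq hz hd => h3 ⟨q, hq, hz, hd⟩) (by
              rw [hwdef] at hpos
              unfold WIN_w at hpos
              exact hpos)
          unfold GP
          rw [Finset.mem_filter, Finset.mem_Ioo]
          refine ⟨⟨hjm.1, by omega⟩, hp, h4, hj30, hcom.1, ?_⟩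
          intro q hq
          exact WIN_q6 hN1 hn2 (hcom.2 q hq)
        rw [if_pos hGP]; linarith
      have hB : (if Bs (zS N) (yS N) (j + 6) then (1 / 2 : ℝ) else 0) =
          1 / 2 * (if j.Prime ∧ Bs (zS N) (yS N) (j + 6) then (1 : ℝ) else 0) := by
        by_cases hb : Bs (zS N) (yS N) (j + 6)
        · rw [if_pos hb, if_pos ⟨hp, hb⟩]; norm_num
        · rw [if_neg hb, if_neg (fun h => hb h.2)]; norm_num
      rw [hB] at hpos
      have hsum : w ≤ (if ¬ j.Prime ∧ vonMangoldt j ≠ 0 then (1 : ℝ) else 0) +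
          (if j ∈ GP n then (1 : ℝ) else 0) +
          (if ∃ q : ℕ, q.Prime ∧ zS N ≤ (q : ℝ) ∧ q ^ 2 ∣ j + 6 then (1 : ℝ) else 0) +
          (if (n + 1) ^ 3 ≤ j + 6 then (1 : ℝ) else 0) +
          1 / 2 * (if j.Prime ∧ Bs (zS N) (yS N) (j + 6) then (1 : ℝ) else 0) := by
        linarith
      have hw0 : 0 ≤ w := by nlinarith
      calc vonMangoldt j * w ≤ L * w := mul_le_mul_of_nonneg_right (hLam.trans hL) hw0
        _ ≤ _ := mul_le_mul_of_nonneg_left hsum hL0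
    · -- the weight is at most the half indicator
      push Not at hpos
      have hB : (if Bs (zS N) (yS N) (j + 6) then (1 / 2 : ℝ) else 0) =
          1 / 2 * (if j.Prime ∧ Bs (zS N) (yS N) (j + 6) then (1 : ℝ) else 0) := by
        by_cases hb : Bs (zS N) (yS N) (j + 6)
        · rw [if_pos hb, if_pos ⟨hp, hb⟩]; norm_num
        · rw [if_neg hb, if_neg (fun h => hb h.2)]; norm_num
      rw [hB] at hpos
      by_cases hw0 : 0 ≤ w
      · calc vonMangoldt j * w ≤ L * w := mul_le_mul_of_nonneg_right (hLam.trans hL) hw0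
          _ ≤ _ := mul_le_mul_of_nonneg_left (by linarith) hL0
      · push Not at hw0
        have h1 : vonMangoldt j * w ≤ 0 := mul_nonpos_of_nonneg_of_nonpos hLam0 hw0.le
        have h2 : 0 ≤ L * ((if ¬ j.Prime ∧ vonMangoldt j ≠ 0 then (1 : ℝ) else 0) +
          (if j ∈ GP n then (1 : ℝ) else 0) +
          (if ∃ q : ℕ, q.Prime ∧ zS N ≤ (q : ℝ) ∧ q ^ 2 ∣ j + 6 then (1 : ℝ) else 0) +
          (if (n + 1) ^ 3 ≤ j + 6 then (1 : ℝ) else 0) +
          1 / 2 * (if j.Prime ∧ Bs (zS N) (yS N) (j + 6) then (1 : ℝ) else 0)) :=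
          mul_nonneg hL0 (by linarith)
        linarith
  · -- not prime
    by_cases hz : vonMangoldt j = 0
    · have h0 : vonMangoldt j * w = 0 := by rw [hz, zero_mul]
      rw [h0]
      exact mul_nonneg hL0 (by linarith)
    · rw [if_pos (⟨hp, hz⟩ : ¬ j.Prime ∧ vonMangoldt j ≠ 0)]
      calc vonMangoldt j * w ≤ vonMangoldt j * 1 := mul_le_mul_of_nonneg_left hw hLam0
        _ ≤ L * 1 := by rw [mul_one, mul_one]; exact hLam.trans hL
        _ ≤ _ := mul_le_mul_of_nonneg_left (by linarith) hL0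

/-- At most seven elements of the window are close to its end. -/
private lemma WIN_end (n : ℕ) : #((Win n).filter fun j => (n + 1) ^ 3 ≤ j + 6) ≤ 7 := by
  have h : (Win n).filter (fun j => (n + 1) ^ 3 ≤ j + 6) ⊆ Icc ((n + 1) ^ 3 - 6) ((n + 1) ^ 3) := by
    intro j hj
    rw [Finset.mem_filter] at hj
    have := Finset.mem_Ioc.1 hj.1
    rw [Finset.mem_Icc]
    omega
  refine (Finset.card_le_card h).trans ?_
  rw [Nat.card_Icc]
  omega

open Classical in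
/-- The switched part. -/
private lemma WIN_sw {N n : ℕ} (hN : 32768 ≤ N) (hn1 : N ≤ n) (hn2 : n < 2 * N) (l₂ : ℕ → ℝ)
    (h2 : ∀ a : ℕ, 1 ≤ a → (if ∃ q : ℕ, q.Prime ∧ q ∣ a ∧ 7 ≤ q ∧ (q : ℝ) < z2 N then (0 : ℝ) else 1) ≤
      ∑ m ∈ a.divisors, l₂ m) :
    (#(((Win n).filter fun j => j % 30 = 1).filter
        fun j => j.Prime ∧ Bs (zS N) (yS N) (j + 6)) : ℝ) ≤
      (∑ b ∈ (BN N (zS N) (yS N) ∩ Win n).filter (fun b => b % 30 = 7),
        ∑ m ∈ (b - 6).divisors, l₂ m) + 7 := by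
  have hn3 : N ^ 3 ≤ n ^ 3 := Nat.pow_le_pow_left hn1 3
  have hbig : 32768 ^ 3 ≤ N ^ 3 := Nat.pow_le_pow_left hN 3
  have hn8 : (n + 1) ^ 3 ≤ 8 * N ^ 3 := by
    calc (n + 1) ^ 3 ≤ (2 * N) ^ 3 := Nat.pow_le_pow_left (by omega) 3
      _ = 8 * N ^ 3 := by ring
  set S := ((Win n).filter fun j => j % 30 = 1).filter
        (fun j => j.Prime ∧ Bs (zS N) (yS N) (j + 6)) with hS
  have hsplit : #S = #(S.filter fun j => j + 6 ∈ Win n) + #(S.filter fun j => ¬ j + 6 ∈ Win n) :=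
    (Finset.card_filter_add_card_filter_not _).symm
  have hA : #(S.filter fun j => ¬ j + 6 ∈ Win n) ≤ 7 := by
    refine le_trans (Finset.card_le_card ?_) (WIN_end n)
    intro j hj
    rw [Finset.mem_filter, hS, Finset.mem_filter, Finset.mem_filter] at hj
    obtain ⟨⟨⟨hjW, -⟩, -⟩, hnot⟩ := hj
    rw [Finset.mem_filter]
    refine ⟨hjW, ?_⟩
    have hjm := Finset.mem_Ioc.1 hjW
    by_contra hcon
    exact hnot (Finset.mem_Ioc.2 ⟨by omega, by omega⟩)
  have hB : (#(S.filter fun j => j + 6 ∈ Win n) : ℝ) ≤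
      ∑ b ∈ (BN N (zS N) (yS N) ∩ Win n).filter (fun b => b % 30 = 7),
        ∑ m ∈ (b - 6).divisors, l₂ m := by
    have hinj : Set.InjOn (fun j : ℕ => j + 6) (S.filter fun j => j + 6 ∈ Win n) := by
      intro a _ b _ hab
      simpa using hab
    rw [← Finset.card_image_of_injOn hinj]
    have hsub : (S.filter fun j => j + 6 ∈ Win n).image (fun j : ℕ => j + 6) ⊆
        (BN N (zS N) (yS N) ∩ Win n).filter (fun b => b % 30 = 7) := by
      intro b hb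
      rw [Finset.mem_image] at hb
      obtain ⟨j, hj, rfl⟩ := hb
      rw [Finset.mem_filter, hS, Finset.mem_filter, Finset.mem_filter] at hj
      obtain ⟨⟨⟨hjW, hj30⟩, hjp, hjB⟩, hj6⟩ := hj
      have hm := Finset.mem_Ioc.1 hj6
      rw [Finset.mem_filter, Finset.mem_inter]
      refine ⟨⟨?_, hj6⟩, by omega⟩
      unfold BN
      rw [Finset.mem_filter, Finset.mem_Ioc]
      exact ⟨⟨by omega, by omega⟩, hjB⟩
    calc ((#((S.filter fun j => j + 6 ∈ Win n).image (fun j : ℕ => j + 6)) : ℕ) : ℝ)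
        = ∑ b ∈ (S.filter fun j => j + 6 ∈ Win n).image (fun j : ℕ => j + 6), (1 : ℝ) := by
          rw [Finset.sum_const, nsmul_eq_mul, mul_one]
      _ ≤ ∑ b ∈ (S.filter fun j => j + 6 ∈ Win n).image (fun j : ℕ => j + 6),
            ∑ m ∈ (b - 6).divisors, l₂ m := by
          apply Finset.sum_le_sum
          intro b hb
          rw [Finset.mem_image] at hb
          obtain ⟨j, hj, rfl⟩ := hb
          rw [Finset.mem_filter, hS, Finset.mem_filter, Finset.mem_filter] at hj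
          obtain ⟨⟨⟨hjW, hj30⟩, hjp, hjB⟩, hj6⟩ := hj
          have hm := Finset.mem_Ioc.1 hjW
          have := h2 j hjp.one_lt.le
          rw [if_neg] at this
          · simpa using this
          · rintro ⟨q, hq, hqj, -, hqz⟩
            have hqe : q = j := (Nat.prime_dvd_prime_iff_eq hq hjp).1 hqj
            subst hqe
            have := WIN_z2 (N := N) (j := q) (by omega) (by omega)
            linarith
      _ ≤ _ := by
          apply Finset.sum_le_sum_of_subset_of_nonneg hsub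
          intro b hb _
          rw [Finset.mem_filter, Finset.mem_inter] at hb
          have hm := Finset.mem_Ioc.1 hb.1.2
          have := h2 (b - 6) (by omega)
          refine le_trans ?_ this
          split_ifs <;> norm_num
  have hsplit' : (#S : ℝ) = (#(S.filter fun j => j + 6 ∈ Win n) : ℝ) +
      (#(S.filter fun j => ¬ j + 6 ∈ Win n) : ℝ) := by exact_mod_cast hsplit
  have hA' : (#(S.filter fun j => ¬ j + 6 ∈ Win n) : ℝ) ≤ 7 := by exact_mod_cast hA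
  linarith

/-- **WIN**: one window. -/
theorem WIN (hC : COM_stmt) (hS : SQB_stmt) : WIN_stmt := by
  classical
  obtain ⟨N₀, hS⟩ := hS
  refine ⟨max N₀ 32768, ?_⟩
  intro N hN l₁ l₂ h1 h2 n hn
  have hN0 : N₀ ≤ N := le_trans (le_max_left _ _) hN
  have hNb : 32768 ≤ N := le_trans (le_max_right _ _) hN
  have hnI := Finset.mem_Ico.1 hn
  obtain ⟨hSq, hSp⟩ := hS N hN0 n hn
  have hPZ := WIN_PZ hNb
  have hSq' := hSq (zS N) hPZ.1
  set L := Real.log (8 * (N : ℝ) ^ 3) with hLdef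
  have hN1 : (1 : ℝ) ≤ (N : ℝ) := by exact_mod_cast (le_trans (by norm_num) hNb)
  have hL0 : 0 ≤ L := by
    apply Real.log_nonneg
    have : (1 : ℝ) ≤ (N : ℝ) ^ 3 := one_le_pow₀ hN1
    linarith
  -- first step: the weights
  have step1 : ∑ j ∈ Win n with j % 30 = 1, vonMangoldt j * ∑ m ∈ (j + 6).divisors, l₁ m ≤
      ∑ j ∈ Win n with j % 30 = 1, L *
      ((if ¬ j.Prime ∧ vonMangoldt j ≠ 0 then (1 : ℝ) else 0) + (if j ∈ GP n then (1 : ℝ) else 0) +
        (if ∃ q : ℕ, q.Prime ∧ zS N ≤ (q : ℝ) ∧ q ^ 2 ∣ j + 6 then (1 : ℝ) else 0) +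
        (if (n + 1) ^ 3 ≤ j + 6 then (1 : ℝ) else 0) +
        1 / 2 * (if j.Prime ∧ Bs (zS N) (yS N) (j + 6) then (1 : ℝ) else 0)) := by
    apply Finset.sum_le_sum
    intro j hj
    rw [Finset.mem_filter] at hj
    refine le_trans ?_ (WIN_pt hC hNb hnI.1 hnI.2 hj.1 hj.2)
    apply mul_le_mul_of_nonneg_left _ vonMangoldt_nonneg
    have := h1 (j + 6) (by omega)
    unfold WIN_w
    exact this
  rw [← Finset.mul_sum] at step1
  simp only [Finset.sum_add_distrib, ← Finset.mul_sum, Finset.sum_boole] at step1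
  have hf : ∀ (P : ℕ → Prop) [DecidablePred P],
      #(((Win n).filter fun j => j % 30 = 1).filter P) ≤ #((Win n).filter P) := by
    intro P _
    exact Finset.card_le_card (Finset.filter_subset_filter _ (Finset.filter_subset _ _))
  have g1 : (#(((Win n).filter fun j => j % 30 = 1).filter
      fun j : ℕ => ¬ j.Prime ∧ vonMangoldt j ≠ 0) : ℝ) ≤ (N : ℝ) ^ (15 / 8 : ℝ) := by
    refine le_trans ?_ hSp
    exact_mod_cast (le_trans (hf _) (le_of_eq (by congr)))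
  have g2 : (#(((Win n).filter fun j => j % 30 = 1).filter fun j : ℕ => j ∈ GP n) : ℝ) ≤
      (#(GP n) : ℝ) := by
    have : #(((Win n).filter fun j => j % 30 = 1).filter fun j : ℕ => j ∈ GP n) ≤ #(GP n) := by
      apply Finset.card_le_card
      intro j hj
      exact (Finset.mem_filter.1 hj).2
    exact_mod_cast this
  have g3 : (#(((Win n).filter fun j => j % 30 = 1).filter
      fun j : ℕ => ∃ q : ℕ, q.Prime ∧ zS N ≤ (q : ℝ) ∧ q ^ 2 ∣ j + 6) : ℝ) ≤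
      (N : ℝ) ^ (15 / 8 : ℝ) := by
    refine le_trans ?_ hSq'
    exact_mod_cast (le_trans (hf _) (le_of_eq (by congr)))
  have g4 : (#(((Win n).filter fun j => j % 30 = 1).filter
      fun j : ℕ => (n + 1) ^ 3 ≤ j + 6) : ℝ) ≤ 7 := by
    exact_mod_cast (le_trans (hf _) (WIN_end n))
  have g5 := WIN_sw hNb hnI.1 hnI.2 l₂ h2
  have hbig : (11 : ℝ) ≤ (N : ℝ) ^ (15 / 8 : ℝ) := by
    have h11 : (11 : ℝ) ≤ (N : ℝ) := by exact_mod_cast (le_trans (by norm_num) hNb)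
    calc (11 : ℝ) ≤ (N : ℝ) := h11
      _ = (N : ℝ) ^ (1 : ℝ) := (Real.rpow_one _).symm
      _ ≤ _ := Real.rpow_le_rpow_of_exponent_le hN1 (by norm_num)
  set T := ∑ b ∈ (BN N (zS N) (yS N) ∩ Win n).filter (fun b => b % 30 = 7),
        ∑ m ∈ (b - 6).divisors, l₂ m with hT
  have step2 : ∑ j ∈ Win n with j % 30 = 1, vonMangoldt j * ∑ m ∈ (j + 6).divisors, l₁ m ≤
      L * ((#(GP n) : ℝ) + 3 * (N : ℝ) ^ (15 / 8 : ℝ) + 1 / 2 * T) := by
    refine step1.trans (mul_le_mul_of_nonneg_left ?_ hL0)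
    linarith
  have : L * ((#(GP n) : ℝ) + 3 * (N : ℝ) ^ (15 / 8 : ℝ) + 1 / 2 * T) =
      L * ((#(GP n) : ℝ) + 3 * (N : ℝ) ^ (15 / 8 : ℝ)) + L / 2 * T := by ring
  rw [this] at step2
  linarith

end Pool.Agent.CH
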